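import Mathlib

/-!
# Words under ordered surjections

A finiteness theorem for families of submodules of the free modules on words, stable under the
substitutions given by all maps between the sets of positions.
-/

set_option autoImplicit false

namespace Pool.Agent.X193.CLO

universe u v w

section words

variable {α : Type u} [DecidableEq α]

/-- Tag each letter by whether it occurs again later in the list. -/
def enc : List α → List (α × Bool)
  | [] => []
  | a :: l => (a, decide (a ∈ l)) :: enc l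

/-- The relation used for the well-quasi-ordering. -/
def Q0 (l l' : List α) : Prop := l.dedup = l'.dedup ∧ (enc l).Sublist (enc l')

theorem filter_enc (l : List α) :
    ((enc l).filter (fun t => !t.2)).map Prod.fst = l.dedup := by
  induction l with
  | nil => rfl
  | cons a l ih =>
    by_cases h : a ∈ l
    · simp [enc, h, ih, List.dedup_cons_of_mem h]
    · simp [enc, h, ih, List.dedup_cons_of_notMem h]

theorem length_dedup_le {l l' : List α} (h : (enc l).Sublist (enc l')) :
    l.dedup.length ≤ l'.dedup.length := by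
  rw [← filter_enc l, ← filter_enc l', List.length_map, List.length_map]
  exact (h.filter _).length_le

end words

section code

variable {α : Type u} (q : ℕ) (e : α → ℕ)

/-- The rank of a word. -/
def code : ∀ {m : ℕ}, (Fin m → α) → ℕ
  | 0, _ => 0
  | _ + 1, w => e (w 0) + q * code (Fin.tail w)

theorem dig {q a b x y : ℕ} (ha : a < q) (hb : b < q) :
    a + q * x < b + q * y ↔ x < y ∨ (x = y ∧ a < b) := by
  rcases lt_trichotomy x y with h | h | h
  · have h1 : q * (x + 1) ≤ q * y := Nat.mul_le_mul_left _ h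
    rw [Nat.mul_add, Nat.mul_one] at h1
    constructor
    · intro _; exact Or.inl h
    · intro _; omega
  · subst h
    constructor
    · intro h; right; exact ⟨rfl, by omega⟩
    · rintro (h | h)
      · omega
      · omega
  · have h1 : q * (y + 1) ≤ q * x := Nat.mul_le_mul_left _ h
    rw [Nat.mul_add, Nat.mul_one] at h1
    constructor
    · intro _; omega
    · rintro (h | h) <;> omega

variable {q e}

theorem code_inj (he : Function.Injective e) (hq : ∀ a, e a < q) {m : ℕ} (u v : Fin m → α)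
    (h : code q e u = code q e v) : u = v := by
  induction m with
  | zero => funext i; exact i.elim0
  | succ m ih =>
    have h1 := (dig (hq (u 0)) (hq (v 0)) (x := code q e (Fin.tail u))
      (y := code q e (Fin.tail v))).not.1 (not_lt.2 (le_of_eq h.symm))
    have h2 := (dig (hq (v 0)) (hq (u 0)) (x := code q e (Fin.tail v))
      (y := code q e (Fin.tail u))).not.1 (not_lt.2 (le_of_eq h))
    push Not at h1 h2
    have h3 : code q e (Fin.tail u) = code q e (Fin.tail v) := le_antisymm h2.1 h1.1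
    have h4 : e (u 0) = e (v 0) := le_antisymm (h2.2 h3.symm) (h1.2 h3)
    have h5 := ih _ _ h3
    have h6 := he h4
    rw [← Fin.cons_self_tail u, ← Fin.cons_self_tail v, h5, h6]

variable (q e) in
/-- A map of positions which preserves the order of words. -/
def Good {m m' : ℕ} (φ : Fin m' → Fin m) : Prop :=
  ∀ u v : Fin m → α, code q e u < code q e v → code q e (u ∘ φ) < code q e (v ∘ φ)

theorem good_new (he : Function.Injective e) (hq : ∀ a, e a < q) {m m' : ℕ}
    {φ : Fin m' → Fin m} (h : Good q e φ) :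
    Good q e (Fin.cons 0 (Fin.succ ∘ φ) : Fin (m' + 1) → Fin (m + 1)) := by
  intro u v huv
  have key : ∀ u : Fin (m + 1) → α,
      code q e (u ∘ (Fin.cons 0 (Fin.succ ∘ φ) : Fin (m' + 1) → Fin (m + 1))) =
        e (u 0) + q * code q e (Fin.tail u ∘ φ) := by
    intro u
    rfl
  rw [key, key, dig (hq _) (hq _)]
  have h1 : code q e (Fin.tail u) < code q e (Fin.tail v) ∨
      (code q e (Fin.tail u) = code q e (Fin.tail v) ∧ e (u 0) < e (v 0)) :=
    (dig (hq _) (hq _)).1 huv
  rcases h1 with h1 | ⟨h1, h2⟩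
  · exact Or.inl (h _ _ h1)
  · refine Or.inr ⟨?_, h2⟩
    rw [code_inj he hq _ _ h1]

theorem good_old (hq : ∀ a, e a < q) {m m' : ℕ} (i : Fin m)
    {φ : Fin m' → Fin m} (h : Good q e φ) :
    Good q e (Fin.cons i φ : Fin (m' + 1) → Fin m) := by
  intro u v huv
  have key : ∀ u : Fin m → α,
      code q e (u ∘ (Fin.cons i φ : Fin (m' + 1) → Fin m)) =
        e (u i) + q * code q e (u ∘ φ) := by
    intro u
    rfl
  rw [key, key, dig (hq _) (hq _)]
  exact Or.inl (h _ _ huv)

theorem exists_good [DecidableEq α] (he : Function.Injective e) (hq : ∀ a, e a < q)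
    {m' : ℕ} : ∀ {m : ℕ} (w : Fin m → α) (w' : Fin m' → α),
    Q0 (List.ofFn w) (List.ofFn w') → ∃ φ : Fin m' → Fin m, Good q e φ ∧ w' = w ∘ φ := by
  induction m' with
  | zero =>
    intro m w w' h
    have h1 : enc (List.ofFn w) = [] := by
      have := h.2
      rw [List.ofFn_zero] at this
      exact List.sublist_nil.1 this
    have hm : m = 0 := by
      cases m with
      | zero => rfl
      | succ m => rw [List.ofFn_succ] at h1; simp [enc] at h1
    subst hm
    refine ⟨id, ?_, ?_⟩
    · intro u v h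
      exact h
    · funext i; exact i.elim0
  | succ m' ih =>
    intro m w w' h
    obtain ⟨hd, hs⟩ := h
    rw [List.ofFn_succ] at hd hs
    have h0 : enc (w' 0 :: List.ofFn (fun i => w' i.succ)) =
      (w' 0, decide (w' 0 ∈ List.ofFn (fun i => w' i.succ))) ::
        enc (List.ofFn (fun i => w' i.succ)) := rfl
    rw [h0] at hs
    rw [List.sublist_cons_iff] at hs
    rcases hs with hs | ⟨r, hr, hs⟩
    · -- the head is skipped
      have hmem : w' 0 ∈ List.ofFn (fun i => w' i.succ) := by
        by_contra hn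
        rw [List.dedup_cons_of_notMem hn] at hd
        have h1 := length_dedup_le hs
        rw [hd, List.length_cons] at h1
        omega
      rw [List.dedup_cons_of_mem hmem] at hd
      obtain ⟨φ, hφ, hw⟩ := ih w (fun i => w' i.succ) ⟨hd, hs⟩
      have h2 : w' 0 ∈ List.ofFn w := by
        rw [← List.mem_dedup, hd, List.mem_dedup]
        exact hmem
      rw [List.mem_ofFn'] at h2
      obtain ⟨i, hi⟩ := h2
      refine ⟨Fin.cons i φ, good_old hq i hφ, ?_⟩
      funext j
      refine Fin.cases ?_ (fun j => ?_) j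
      · exact hi.symm
      · exact congrFun hw j
    · cases m with
      | zero => rw [List.ofFn_zero] at hr; simp [enc] at hr
      | succ m =>
        rw [List.ofFn_succ] at hr hd
        have h1 : enc (w 0 :: List.ofFn (fun i => w i.succ)) =
          (w 0, decide (w 0 ∈ List.ofFn (fun i => w i.succ))) ::
            enc (List.ofFn (fun i => w i.succ)) := rfl
        rw [h1, List.cons.injEq, Prod.mk.injEq] at hr
        obtain ⟨⟨h2, h3⟩, h4⟩ := hr
        have hd' : (List.ofFn (fun i => w i.succ)).dedup =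
            (List.ofFn (fun i => w' i.succ)).dedup := by
          by_cases hmem : w 0 ∈ List.ofFn (fun i => w i.succ)
          · have hmem' : w' 0 ∈ List.ofFn (fun i => w' i.succ) := by
              simpa [hmem] using h3.symm
            rw [List.dedup_cons_of_mem hmem, List.dedup_cons_of_mem hmem'] at hd
            exact hd
          · have hmem' : w' 0 ∉ List.ofFn (fun i => w' i.succ) := by
              simpa [hmem] using h3.symm
            rw [List.dedup_cons_of_notMem hmem, List.dedup_cons_of_notMem hmem'] at hd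
            exact (List.cons.injEq _ _ _ _ ▸ hd).2
        obtain ⟨φ, hφ, hw⟩ := ih (fun i => w i.succ) (fun i => w' i.succ) ⟨hd', h4 ▸ hs⟩
        refine ⟨Fin.cons 0 (Fin.succ ∘ φ), good_new he hq hφ, ?_⟩
        funext j
        refine Fin.cases ?_ (fun j => ?_) j
        · exact h2.symm
        · exact congrFun hw j

end code

section wqo

theorem sublist_of_forall₂ {β : Type u} {l l' : List β}
    (h : List.SublistForall₂ (fun a b : β => a = b) l l') : l.Sublist l' := by
  rw [List.sublistForall₂_iff] at h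
  obtain ⟨k, h1, h2⟩ := h
  have h3 : l = k := by
    have := List.forall₂_eq_eq_eq (α := β)
    rw [show List.Forall₂ (fun a b : β => a = b) = fun a b => a = b from this] at h1
    exact h1
  rw [h3]; exact h2

theorem exists_subseq {α : Type u} {F : Type v} [Finite α] [DecidableEq α] [Finite F]
    (f : ℕ → F × List α) :
    ∃ g : ℕ ↪o ℕ, ∀ m n, m ≤ n → (f (g m)).1 = (f (g n)).1 ∧ Q0 (f (g m)).2 (f (g n)).2 := by
  classical
  have := Fintype.ofFinite α
  have := Fintype.ofFinite F
  let r1 : (F × {l : List α // l.Nodup}) → (F × {l : List α // l.Nodup}) → Prop :=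
    fun a b => a = b
  have i1 : IsPreorder _ r1 := { refl := fun a => rfl, trans := fun a b c h h' => h.trans h' }
  have h1 : WellQuasiOrdered r1 := Finite.wellQuasiOrdered r1
  let r0 : (α × Bool) → (α × Bool) → Prop := fun a b => a = b
  have i0 : IsPreorder _ r0 := { refl := fun a => rfl, trans := fun a b c h h' => h.trans h' }
  have h0 : WellQuasiOrdered r0 := Finite.wellQuasiOrdered r0
  have h2 : WellQuasiOrdered (List.SublistForall₂ r0) := by
    have h3 := Set.PartiallyWellOrderedOn.partiallyWellOrderedOn_sublistForall₂ (s := Set.univ) r0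
      (Set.partiallyWellOrderedOn_univ_iff.2 h0)
    have h4 : {l : List (α × Bool) | ∀ x, x ∈ l → x ∈ Set.univ} = Set.univ := by
      ext l; simp
    rw [h4, Set.partiallyWellOrderedOn_univ_iff] at h3
    exact h3
  have i2 : IsPreorder _ (List.SublistForall₂ r0) :=
    { refl := fun l => refl_of _ l, trans := fun a b c h h' => _root_.trans h h' }
  have h5 := h1.prod h2
  have i5 : IsPreorder _ (fun a b : (F × {l : List α // l.Nodup}) × List (α × Bool) =>
      r1 a.1 b.1 ∧ List.SublistForall₂ r0 a.2 b.2) :=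
    { refl := fun a => ⟨rfl, refl_of _ _⟩
      trans := fun a b c h h' => ⟨h.1.trans h'.1, _root_.trans h.2 h'.2⟩ }
  obtain ⟨g, hg⟩ := h5.exists_monotone_subseq
    (fun n => (((f n).1, ⟨(f n).2.dedup, List.nodup_dedup _⟩), enc (f n).2))
  refine ⟨g, fun m n hmn => ?_⟩
  obtain ⟨k1, k2⟩ := hg m n hmn
  have k3 := Prod.mk.inj k1
  exact ⟨k3.1, congrArg Subtype.val k3.2, sublist_of_forall₂ k2⟩

end wqo

section noeth

variable {α : Type u} {F : Type v} {S : Type w} [Finite α] [Finite F] [Ring S] [Finite S]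

/-- The substitution of positions in a formal combination of words. -/
noncomputable def psub {m m' : ℕ} (φ : Fin m' → Fin m) :
    ((F × (Fin m → α)) →₀ S) →ₗ[S] ((F × (Fin m' → α)) →₀ S) :=
  Finsupp.lmapDomain S S (fun t => (t.1, t.2 ∘ φ))

/-- The finiteness theorem. -/
theorem noeth (Rel : ∀ m : ℕ, Submodule S ((F × (Fin m → α)) →₀ S))
    (hRel : ∀ (m m' : ℕ) (φ : Fin m' → Fin m) (x : (F × (Fin m → α)) →₀ S),
      x ∈ Rel m → psub φ x ∈ Rel m') :
    ∃ G : Set (Σ m : ℕ, ((F × (Fin m → α)) →₀ S)), G.Finite ∧ (∀ g ∈ G, g.2 ∈ Rel g.1) ∧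
      ∀ (m : ℕ) (x : (F × (Fin m → α)) →₀ S), x ∈ Rel m →
        x ∈ Submodule.span S {y | ∃ g ∈ G, ∃ φ : Fin m → Fin g.1, y = psub φ g.2} := by
  classical
  obtain ⟨q, ⟨eα⟩⟩ := Finite.exists_equiv_fin α
  obtain ⟨qF, ⟨eF⟩⟩ := Finite.exists_equiv_fin F
  let e : α → ℕ := fun a => (eα a : ℕ)
  have he : Function.Injective e := fun a b h => eα.injective (Fin.ext h)
  have hq : ∀ a, e a < q := fun a => (eα a).2
  -- the rank of an index
  let rk : ∀ m : ℕ, (F × (Fin m → α)) → ℕ := fun m t => (eF t.1 : ℕ) + qF * code q e t.2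
  have rk_inj : ∀ (m : ℕ) (s t : F × (Fin m → α)), rk m s = rk m t → s = t := by
    intro m s t h
    have h1 := (dig (eF s.1).2 (eF t.1).2 (x := code q e s.2) (y := code q e t.2)).not.1
      (not_lt.2 (le_of_eq h.symm))
    have h2 := (dig (eF t.1).2 (eF s.1).2 (x := code q e t.2) (y := code q e s.2)).not.1
      (not_lt.2 (le_of_eq h))
    push Not at h1 h2
    have h3 : code q e s.2 = code q e t.2 := le_antisymm h2.1 h1.1
    have h4 : (eF s.1 : ℕ) = eF t.1 := le_antisymm (h2.2 h3.symm) (h1.2 h3)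
    exact Prod.ext (eF.injective (Fin.ext h4)) (code_inj he hq _ _ h3)
  have rk_mono : ∀ (m m' : ℕ) (φ : Fin m' → Fin m), Good q e φ →
      ∀ s t : F × (Fin m → α), rk m s < rk m t →
        rk m' (s.1, s.2 ∘ φ) < rk m' (t.1, t.2 ∘ φ) := by
    intro m m' φ hφ s t h
    have h1 : code q e s.2 < code q e t.2 ∨
        (code q e s.2 = code q e t.2 ∧ (eF s.1 : ℕ) < eF t.1) :=
      (dig (eF s.1).2 (eF t.1).2).1 h
    show (eF s.1 : ℕ) + qF * code q e (s.2 ∘ φ) < (eF t.1 : ℕ) + qF * code q e (t.2 ∘ φ)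
    rw [dig (eF s.1).2 (eF t.1).2]
    rcases h1 with h1 | ⟨h1, h2⟩
    · exact Or.inl (hφ _ _ h1)
    · refine Or.inr ⟨?_, h2⟩
      rw [code_inj he hq _ _ h1]
  -- leading coefficients
  let T := Σ m : ℕ, F × (Fin m → α)
  let L : ∀ (t : T), S → ((F × (Fin t.1 → α)) →₀ S) → Prop := fun t c x =>
    x ∈ Rel t.1 ∧ x t.2 = c ∧ ∀ j, x j ≠ 0 → rk t.1 j ≤ rk t.1 t.2
  let I : T → Submodule S S := fun t =>
    { carrier := {c | ∃ x, L t c x}
      zero_mem' := ⟨0, (Rel t.1).zero_mem, rfl, fun j hj => (hj rfl).elim⟩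
      add_mem' := by
        rintro a b ⟨x, hx1, hx2, hx3⟩ ⟨y, hy1, hy2, hy3⟩
        refine ⟨x + y, (Rel t.1).add_mem hx1 hy1, by rw [Finsupp.add_apply, hx2, hy2], ?_⟩
        intro j hj
        by_cases hxj : x j = 0
        · exact hy3 j (fun h => hj (by rw [Finsupp.add_apply, hxj, h, add_zero]))
        · exact hx3 j hxj
      smul_mem' := by
        rintro c a ⟨x, hx1, hx2, hx3⟩
        refine ⟨c • x, (Rel t.1).smul_mem c hx1, by rw [Finsupp.smul_apply, hx2], ?_⟩
        intro j hj
        exact hx3 j (fun h => hj (by rw [Finsupp.smul_apply, h, smul_zero])) }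
  -- the order on T
  let R : T → T → Prop := fun s t =>
    ∃ φ : Fin t.1 → Fin s.1, Good q e φ ∧ t.2 = (s.2.1, s.2.2 ∘ φ)
  have push_lead : ∀ (m m' : ℕ) (φ : Fin m' → Fin m) (t : F × (Fin m → α)) (c : S)
      (x : (F × (Fin m → α)) →₀ S), Good q e φ → L ⟨m, t⟩ c x →
      L ⟨m', (t.1, t.2 ∘ φ)⟩ c (psub φ x) := by
    intro m m' φ t c x hφ hL
    obtain ⟨h1, h2, h3⟩ := hL
    have hinj : Function.Injective (fun t : F × (Fin m → α) => (t.1, t.2 ∘ φ)) := by
      intro a b hab
      by_contra hne
      rcases lt_trichotomy (rk m a) (rk m b) with h | h | h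
      · have := rk_mono m m' φ hφ a b h
        rw [show (a.1, a.2 ∘ φ) = (b.1, b.2 ∘ φ) from hab] at this
        exact lt_irrefl _ this
      · exact hne (rk_inj m a b h)
      · have := rk_mono m m' φ hφ b a h
        rw [show (a.1, a.2 ∘ φ) = (b.1, b.2 ∘ φ) from hab] at this
        exact lt_irrefl _ this
    refine ⟨hRel m m' φ x h1, ?_, ?_⟩
    · rw [← h2]
      exact Finsupp.mapDomain_apply hinj x t
    · intro j hj
      have hj2 : j ∈ (Finsupp.mapDomain (fun t : F × (Fin m → α) => (t.1, t.2 ∘ φ)) x).support :=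
        Finsupp.mem_support_iff.2 hj
      have hj3 := Finsupp.mapDomain_support hj2
      rw [Finset.mem_image] at hj3
      obtain ⟨i, hi, hij⟩ := hj3
      have hi2 := h3 i (Finsupp.mem_support_iff.1 hi)
      rw [← hij]
      rcases lt_or_eq_of_le hi2 with h | h
      · exact le_of_lt (rk_mono m m' φ hφ i t h)
      · rw [rk_inj m i t h]
  have I_mono : ∀ s t : T, R s t → I s ≤ I t := by
    rintro ⟨m, s⟩ ⟨m', t⟩ hR
    have key : ∀ φ : Fin m' → Fin m, Good q e φ → t = (s.1, s.2 ∘ φ) →
        I ⟨m, s⟩ ≤ I ⟨m', t⟩ := by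
      intro φ hφ ht
      subst ht
      rintro c ⟨x, hx⟩
      exact ⟨psub φ x, push_lead m m' φ s c x hφ hx⟩
    obtain ⟨φ, hφ, ht⟩ := hR
    exact key φ hφ ht
  -- the finite set of leading terms
  have key : ∃ s : Finset (T × S), (∀ y ∈ s, y.2 ∈ I y.1) ∧
      ∀ y : T × S, y.2 ∈ I y.1 → ∃ z ∈ s, R z.1 y.1 ∧ y.2 ∈ I z.1 := by
    by_contra hcon
    push Not at hcon
    obtain ⟨f, hf1, hf2⟩ := exists_seq_of_forall_finset_exists
      (fun y : T × S => y.2 ∈ I y.1) (fun z y => R z.1 y.1 → y.2 ∉ I z.1)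
      (fun s hs => by
        obtain ⟨y, hy, hy2⟩ := hcon s hs
        exact ⟨y, hy, fun z hz hR => hy2 z hz hR⟩)
    obtain ⟨g, hg⟩ := exists_subseq (fun n => ((f n).1.2.1, List.ofFn (f n).1.2.2))
    have hR : ∀ m n, m ≤ n → R (f (g m)).1 (f (g n)).1 := by
      intro m n hmn
      obtain ⟨h1, h2⟩ := hg m n hmn
      obtain ⟨φ, hφ, hw⟩ := exists_good he hq _ _ h2
      exact ⟨φ, hφ, Prod.ext h1.symm hw⟩
    have hmono : Monotone (fun n => I (f (g n)).1) := fun m n hmn => I_mono _ _ (hR m n hmn)
    obtain ⟨n, hn⟩ := monotone_stabilizes_iff_noetherian.2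
      (inferInstance : IsNoetherian S S) ⟨_, hmono⟩
    have h1 : I (f (g n)).1 = I (f (g (n + 1))).1 := hn (n + 1) (Nat.le_succ n)
    have h2 := hf2 (g n) (g (n + 1)) (g.strictMono (Nat.lt_succ_self n)) (hR n (n + 1) (Nat.le_succ n))
    apply h2
    rw [h1]
    exact hf1 _
  obtain ⟨s, hs1, hs2⟩ := key
  -- choose relations with the given leading terms
  let W : Set (T × S) := {y | y.2 ∈ I y.1 ∧ ∃ z ∈ s, y.1 = z.1}
  have hW : W.Finite := by
    have h1 : W ⊆ (fun p : (T × S) × S => (p.1.1, p.2)) '' ((s : Set (T × S)) ×ˢ Set.univ) := by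
      rintro ⟨t, c⟩ ⟨_, z, hz, hz2⟩
      exact ⟨(z, c), ⟨hz, trivial⟩, Prod.ext hz2.symm rfl⟩
    exact ((s.finite_toSet.prod Set.finite_univ).image _).subset h1
  have hch : ∀ y : T × S, y.2 ∈ I y.1 → ∃ x, L y.1 y.2 x := fun y hy => hy
  let G : Set (Σ m : ℕ, ((F × (Fin m → α)) →₀ S)) :=
    (fun y : T × S => (⟨y.1.1, if h : y.2 ∈ I y.1 then (hch y h).choose else 0⟩ :
      Σ m : ℕ, ((F × (Fin m → α)) →₀ S))) '' W
  refine ⟨G, hW.image _, ?_, ?_⟩
  · rintro g ⟨y, hy, rfl⟩
    show (if h : y.2 ∈ I y.1 then (hch y h).choose else 0) ∈ Rel y.1.1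
    rw [dif_pos hy.1]
    exact (hch y hy.1).choose_spec.1
  · intro m
    have main : ∀ (n : ℕ) (x : (F × (Fin m → α)) →₀ S), x ∈ Rel m →
        (∀ j, x j ≠ 0 → rk m j < n) →
        x ∈ Submodule.span S {y | ∃ g ∈ G, ∃ φ : Fin m → Fin g.1, y = psub φ g.2} := by
      intro n
      induction n with
      | zero =>
        intro x hx h
        have : x = 0 := by
          ext j
          by_contra hj
          exact absurd (h j hj) (Nat.not_lt_zero _)
        rw [this]; exact Submodule.zero_mem _
      | succ n ih =>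
        intro x hx h
        by_cases hex : ∃ j, x j ≠ 0 ∧ rk m j = n
        · obtain ⟨t, ht1, ht2⟩ := hex
          have hL : L ⟨m, t⟩ (x t) x := ⟨hx, rfl, fun j hj => by
            show rk m j ≤ rk m t
            rw [ht2]; exact Nat.lt_succ_iff.1 (h j hj)⟩
          have hc : (x t) ∈ I ⟨m, t⟩ := ⟨x, hL⟩
          obtain ⟨z, hz, hR, hz2⟩ := hs2 (⟨m, t⟩, x t) hc
          obtain ⟨⟨mz, tz⟩, cz⟩ := z
          obtain ⟨φ, hφ, ht⟩ := hR
          have ht' : t = (tz.1, tz.2 ∘ φ) := ht
          have hz2' : x t ∈ I ⟨mz, tz⟩ := hz2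
          have hyW : ((⟨mz, tz⟩, x t) : T × S) ∈ W := ⟨hz2', _, hz, rfl⟩
          have hsp := (hch (⟨mz, tz⟩, x t) hz2').choose_spec
          set y0 := (hch (⟨mz, tz⟩, x t) hz2').choose with hy0
          have hyG : (⟨mz, y0⟩ : Σ m : ℕ, ((F × (Fin m → α)) →₀ S)) ∈ G := by
            refine ⟨(⟨mz, tz⟩, x t), hyW, ?_⟩
            show (⟨mz, if h : x t ∈ I ⟨mz, tz⟩ then (hch (⟨mz, tz⟩, x t) h).choose else 0⟩ :
              Σ m : ℕ, ((F × (Fin m → α)) →₀ S)) = ⟨mz, y0⟩
            rw [dif_pos hz2']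
          have hlead := push_lead mz m φ tz (x t) y0 hφ hsp
          rw [← ht'] at hlead
          obtain ⟨l1, l2, l3⟩ := hlead
          have hspan : psub φ y0 ∈ Submodule.span S
              {y | ∃ g ∈ G, ∃ φ : Fin m → Fin g.1, y = psub φ g.2} :=
            Submodule.subset_span ⟨⟨mz, y0⟩, hyG, φ, rfl⟩
          have h5 : x - psub φ y0 ∈ Submodule.span S
              {y | ∃ g ∈ G, ∃ φ : Fin m → Fin g.1, y = psub φ g.2} := by
            apply ih _ ((Rel m).sub_mem hx l1)
            intro j hj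
            have hjt : j ≠ t := by
              rintro rfl
              exact hj (by rw [Finsupp.sub_apply, l2, sub_self])
            have h6 : rk m j ≤ n := by
              by_cases hxj : x j = 0
              · have : psub φ y0 j ≠ 0 := fun h0 => hj (by
                  rw [Finsupp.sub_apply, hxj, h0, sub_self])
                have := l3 j this
                rw [← ht2]
                exact this
              · exact Nat.lt_succ_iff.1 (h j hxj)
            refine lt_of_le_of_ne h6 (fun h7 => hjt (rk_inj m j t ?_))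
            rw [h7, ht2]
          have h8 := Submodule.add_mem _ h5 hspan
          rwa [sub_add_cancel] at h8
        · push Not at hex
          exact ih x hx (fun j hj => lt_of_le_of_ne (Nat.lt_succ_iff.1 (h j hj)) (hex j hj))
    intro x hx
    have hfin : ∃ n, ∀ j, x j ≠ 0 → rk m j < n := by
      refine ⟨x.support.sup (rk m) + 1, fun j hj => ?_⟩
      exact Nat.lt_succ_of_le (Finset.le_sup (f := rk m) (Finsupp.mem_support_iff.2 hj))
    obtain ⟨n, hn⟩ := hfin
    exact main n x hx hn

end noeth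

end Pool.Agent.X193.CLO
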