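import Mathlib

/-!
# Two-sorted algebras attached to sets of operations between modules

Terms, identities, equational logic and finite equational bases for the two-sorted algebras
`M(A, B, F)` whose two sorts are modules and which carry operations from the first sort to the
second.
-/

set_option autoImplicit false

namespace Pool.Agent.X193.CLO

universe u1 u2 u3 u4 u5

/-- Terms of the first sort: module terms over the ring `R` in variables `x_0, x_1, …`. -/
inductive TmA (R : Type u1) : Type u1
  | var (n : ℕ) : TmA R
  | zero : TmA R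
  | add (s t : TmA R) : TmA R
  | neg (s : TmA R) : TmA R
  | smul (r : R) (s : TmA R) : TmA R

/-- Terms of the second sort: built from variables `z_0, z_1, …` of the second sort and from
operation symbols `f ∈ F` of arity `ar f` applied to terms of the first sort, by module operations
over the ring `S`. -/
inductive TmB (R : Type u1) (S : Type u2) {F : Type u3} (ar : F → ℕ) : Type (max u1 u2 u3)
  | var (n : ℕ) : TmB R S ar
  | zero : TmB R S ar
  | add (s t : TmB R S ar) : TmB R S ar
  | neg (s : TmB R S ar) : TmB R S ar
  | smul (r : S) (s : TmB R S ar) : TmB R S ar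
  | app (f : F) (a : Fin (ar f) → TmA R) : TmB R S ar

/-- Two-sorted algebras of this signature, without any laws. -/
structure Alg (R : Type u1) (S : Type u2) {F : Type u3} (ar : F → ℕ) (M : Type u4)
    (N : Type u5) where
  zA : M
  aA : M → M → M
  nA : M → M
  sA : R → M → M
  zB : N
  aB : N → N → N
  nB : N → N
  sB : S → N → N
  op : (f : F) → (Fin (ar f) → M) → N

section

variable {R : Type u1} {S : Type u2} {F : Type u3} {ar : F → ℕ} {M : Type u4} {N : Type u5}

/-- The value of a term of the first sort. -/
def TmA.eval (X : Alg R S ar M N) (v : ℕ → M) : TmA R → M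
  | .var n => v n
  | .zero => X.zA
  | .add s t => X.aA (s.eval X v) (t.eval X v)
  | .neg s => X.nA (s.eval X v)
  | .smul r s => X.sA r (s.eval X v)

/-- The value of a term of the second sort. -/
def TmB.eval (X : Alg R S ar M N) (v : ℕ → M) (z : ℕ → N) : TmB R S ar → N
  | .var n => z n
  | .zero => X.zB
  | .add s t => X.aB (s.eval X v z) (t.eval X v z)
  | .neg s => X.nB (s.eval X v z)
  | .smul r s => X.sB r (s.eval X v z)
  | .app f a => X.op f (fun i => (a i).eval X v)

/-- An identity between terms of the first sort holds in `X`. -/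
def HoldsA (X : Alg R S ar M N) (s t : TmA R) : Prop := ∀ v : ℕ → M, s.eval X v = t.eval X v

/-- An identity between terms of the second sort holds in `X`. -/
def HoldsB (X : Alg R S ar M N) (s t : TmB R S ar) : Prop :=
  ∀ (v : ℕ → M) (z : ℕ → N), s.eval X v z = t.eval X v z

/-- Substitution in terms of the first sort. -/
def TmA.subst (σ : ℕ → TmA R) : TmA R → TmA R
  | .var n => σ n
  | .zero => .zero
  | .add s t => .add (s.subst σ) (t.subst σ)
  | .neg s => .neg (s.subst σ)
  | .smul r s => .smul r (s.subst σ)

/-- Substitution in terms of the second sort. -/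
def TmB.subst (σ : ℕ → TmA R) (τ : ℕ → TmB R S ar) : TmB R S ar → TmB R S ar
  | .var n => τ n
  | .zero => .zero
  | .add s t => .add (s.subst σ τ) (t.subst σ τ)
  | .neg s => .neg (s.subst σ τ)
  | .smul r s => .smul r (s.subst σ τ)
  | .app f a => .app f (fun i => (a i).subst σ)

/-- Equational logic for the first sort. -/
inductive DerA (EA : Set (TmA R × TmA R)) : TmA R → TmA R → Prop
  | ax (s t : TmA R) (σ : ℕ → TmA R) : (s, t) ∈ EA → DerA EA (s.subst σ) (t.subst σ)
  | refl (s : TmA R) : DerA EA s s
  | symm {s t : TmA R} : DerA EA s t → DerA EA t s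
  | trans {s t u : TmA R} : DerA EA s t → DerA EA t u → DerA EA s u
  | add {s s' t t' : TmA R} : DerA EA s s' → DerA EA t t' → DerA EA (s.add t) (s'.add t')
  | neg {s s' : TmA R} : DerA EA s s' → DerA EA s.neg s'.neg
  | smul (r : R) {s s' : TmA R} : DerA EA s s' → DerA EA (.smul r s) (.smul r s')

/-- Equational logic for the second sort. -/
inductive DerB (EA : Set (TmA R × TmA R)) (EB : Set (TmB R S ar × TmB R S ar)) :
    TmB R S ar → TmB R S ar → Prop
  | ax (s t : TmB R S ar) (σ : ℕ → TmA R) (τ : ℕ → TmB R S ar) : (s, t) ∈ EB →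
      DerB EA EB (s.subst σ τ) (t.subst σ τ)
  | refl (s : TmB R S ar) : DerB EA EB s s
  | symm {s t : TmB R S ar} : DerB EA EB s t → DerB EA EB t s
  | trans {s t u : TmB R S ar} : DerB EA EB s t → DerB EA EB t u → DerB EA EB s u
  | add {s s' t t' : TmB R S ar} : DerB EA EB s s' → DerB EA EB t t' →
      DerB EA EB (s.add t) (s'.add t')
  | neg {s s' : TmB R S ar} : DerB EA EB s s' → DerB EA EB s.neg s'.neg
  | smul (r : S) {s s' : TmB R S ar} : DerB EA EB s s' → DerB EA EB (.smul r s) (.smul r s')
  | app (f : F) (a b : Fin (ar f) → TmA R) : (∀ i, DerA EA (a i) (b i)) →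
      DerB EA EB (.app f a) (.app f b)

/-- `X` has a finite equational basis: there are finite sets of identities of the two sorts
from which exactly the identities true in `X` are derivable. -/
def HasFiniteBasis (X : Alg R S ar M N) : Prop :=
  ∃ (EA : Set (TmA R × TmA R)) (EB : Set (TmB R S ar × TmB R S ar)), EA.Finite ∧ EB.Finite ∧
    (∀ s t : TmA R, DerA EA s t ↔ HoldsA X s t) ∧
    (∀ s t : TmB R S ar, DerB EA EB s t ↔ HoldsB X s t)

variable (R S ar M N)

/-- The two-sorted algebra given by an `R`-module `M`, an `S`-module `N` and operations from `M`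
to `N`. -/
def modAlg [Ring R] [Ring S] [AddCommGroup M] [Module R M] [AddCommGroup N] [Module S N]
    (op : (f : F) → (Fin (ar f) → M) → N) : Alg R S ar M N where
  zA := 0
  aA := fun x y => x + y
  nA := fun x => -x
  sA := fun r x => r • x
  zB := 0
  aB := fun x y => x + y
  nB := fun x => -x
  sB := fun r x => r • x
  op := op

end

end Pool.Agent.X193.CLO
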