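import Pool.Agent.X193.CLO.Model

/-!
# Finite equational bases of the two-sorted algebras of finitely generated clonoids
-/

set_option autoImplicit false
set_option linter.style.haveILetI false
set_option linter.unusedSectionVars false

namespace Pool.Agent.X193.CLO

universe u1 u2 u3 u4 u5 u6 u7

section laws

variable {R : Type u1} {T : Type u2} [Ring R]

/-- The laws of `R`-modules annihilated by the elements of `ann`. -/
def modLaws (z : T) (a : T → T → T) (n : T → T) (s : R → T → T) (x y w : T) (ann : Set R) :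
    Set (T × T) :=
  {p | p = (a (a x y) w, a x (a y w)) ∨ p = (a x y, a y x) ∨ p = (a z x, x) ∨
    p = (a (n x) x, z) ∨ p = (s 1 x, x) ∨ (∃ r, p = (s r (a x y), a (s r x) (s r y))) ∨
    (∃ r r', p = (s (r + r') x, a (s r x) (s r' x))) ∨
    (∃ r r', p = (s (r * r') x, s r (s r' x))) ∨ (∃ r ∈ ann, p = (s r x, z))}

theorem modLaws_finite [Finite R] (z : T) (a : T → T → T) (n : T → T) (s : R → T → T)
    (x y w : T) (ann : Set R) : (modLaws z a n s x y w ann).Finite := by
  have h1 : ({p | ∃ r, p = (s r (a x y), a (s r x) (s r y))} : Set (T × T)).Finite := by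
    refine (Set.finite_range (fun r => (s r (a x y), a (s r x) (s r y)))).subset ?_
    rintro p ⟨r, rfl⟩; exact ⟨r, rfl⟩
  have h2 : ({p | ∃ r r', p = (s (r + r') x, a (s r x) (s r' x))} : Set (T × T)).Finite := by
    refine (Set.finite_range (fun r : R × R =>
      (s (r.1 + r.2) x, a (s r.1 x) (s r.2 x)))).subset ?_
    rintro p ⟨r, r', rfl⟩; exact ⟨(r, r'), rfl⟩
  have h3 : ({p | ∃ r r', p = (s (r * r') x, s r (s r' x))} : Set (T × T)).Finite := by
    refine (Set.finite_range (fun r : R × R => (s (r.1 * r.2) x, s r.1 (s r.2 x)))).subset ?_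
    rintro p ⟨r, r', rfl⟩; exact ⟨(r, r'), rfl⟩
  have h4 : ({p | ∃ r ∈ ann, p = (s r x, z)} : Set (T × T)).Finite := by
    refine (Set.finite_range (fun r : R => (s r x, z))).subset ?_
    rintro p ⟨r, _, rfl⟩; exact ⟨r, rfl⟩
  have e : ∀ q : T × T, ({p | p = q} : Set (T × T)).Finite := fun q => Set.finite_singleton q
  exact (e _).union ((e _).union ((e _).union ((e _).union ((e _).union
    (h1.union (h2.union (h3.union h4)))))))

end laws

variable {R : Type u1} {S : Type u2} {F : Type u3} {ar : F → ℕ} {M : Type u4} {N : Type u5}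

section sound

theorem TmA.eval_subst (X : Alg R S ar M N) (v : ℕ → M) (σ : ℕ → TmA R) (t : TmA R) :
    (t.subst σ).eval X v = t.eval X (fun n => (σ n).eval X v) := by
  induction t with
  | var n => rfl
  | zero => rfl
  | add s t ihs iht => show X.aA _ _ = X.aA _ _; rw [ihs, iht]
  | neg s ih => show X.nA _ = X.nA _; rw [ih]
  | smul r s ih => show X.sA _ _ = X.sA _ _; rw [ih]

theorem TmB.eval_subst (X : Alg R S ar M N) (v : ℕ → M) (z : ℕ → N) (σ : ℕ → TmA R)
    (τ : ℕ → TmB R S ar) (t : TmB R S ar) :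
    (t.subst σ τ).eval X v z =
      t.eval X (fun n => (σ n).eval X v) (fun n => (τ n).eval X v z) := by
  induction t with
  | var n => rfl
  | zero => rfl
  | add s t ihs iht => show X.aB _ _ = X.aB _ _; rw [ihs, iht]
  | neg s ih => show X.nB _ = X.nB _; rw [ih]
  | smul r s ih => show X.sB _ _ = X.sB _ _; rw [ih]
  | app f a =>
    show X.op f _ = X.op f _
    congr 1
    funext i
    exact TmA.eval_subst X v σ (a i)

theorem derA_sound (X : Alg R S ar M N) (EA : Set (TmA R × TmA R))
    (hA : ∀ e ∈ EA, HoldsA X e.1 e.2) {s t : TmA R} (h : DerA EA s t) : HoldsA X s t := by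
  induction h with
  | ax s t σ hst => intro v; rw [TmA.eval_subst, TmA.eval_subst]; exact hA _ hst _
  | refl s => exact fun v => rfl
  | symm _ ih => exact fun v => (ih v).symm
  | trans _ _ ih1 ih2 => exact fun v => (ih1 v).trans (ih2 v)
  | add _ _ ih1 ih2 => intro v; show X.aA _ _ = X.aA _ _; rw [ih1 v, ih2 v]
  | neg _ ih => intro v; show X.nA _ = X.nA _; rw [ih v]
  | smul r _ ih => intro v; show X.sA _ _ = X.sA _ _; rw [ih v]

theorem derB_sound (X : Alg R S ar M N) (EA : Set (TmA R × TmA R))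
    (EB : Set (TmB R S ar × TmB R S ar)) (hA : ∀ e ∈ EA, HoldsA X e.1 e.2)
    (hB : ∀ e ∈ EB, HoldsB X e.1 e.2) {s t : TmB R S ar} (h : DerB EA EB s t) :
    HoldsB X s t := by
  induction h with
  | ax s t σ τ hst => intro v z; rw [TmB.eval_subst, TmB.eval_subst]; exact hB _ hst _ _
  | refl s => exact fun v z => rfl
  | symm _ ih => exact fun v z => (ih v z).symm
  | trans _ _ ih1 ih2 => exact fun v z => (ih1 v z).trans (ih2 v z)
  | add _ _ ih1 ih2 => intro v z; show X.aB _ _ = X.aB _ _; rw [ih1 v z, ih2 v z]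
  | neg _ ih => intro v z; show X.nB _ = X.nB _; rw [ih v z]
  | smul r _ ih => intro v z; show X.sB _ _ = X.sB _ _; rw [ih v z]
  | app f a b hab =>
    intro v z
    show X.op f _ = X.op f _
    congr 1
    funext i
    exact derA_sound X EA hA (hab i) v

end sound

section free

variable (EA : Set (TmA R × TmA R)) (EB : Set (TmB R S ar × TmB R S ar))

/-- Derivability in the first sort. -/
def stdA : Setoid (TmA R) where
  r := DerA EA
  iseqv := ⟨DerA.refl, DerA.symm, DerA.trans⟩

/-- Derivability in the second sort. -/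
def stdB : Setoid (TmB R S ar) where
  r := DerB EA EB
  iseqv := ⟨DerB.refl, DerB.symm, DerB.trans⟩

/-- The free two-sorted algebra. -/
noncomputable def freeAlg : Alg R S ar (Quotient (stdA EA)) (Quotient (stdB EA EB)) where
  zA := Quotient.mk _ .zero
  aA := Quotient.map₂ TmA.add (fun _ _ h _ _ h' => DerA.add h h')
  nA := Quotient.map TmA.neg (fun _ _ h => DerA.neg h)
  sA := fun r => Quotient.map (TmA.smul r) (fun _ _ h => DerA.smul r h)
  zB := Quotient.mk _ .zero
  aB := Quotient.map₂ TmB.add (fun _ _ h _ _ h' => DerB.add h h')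
  nB := Quotient.map TmB.neg (fun _ _ h => DerB.neg h)
  sB := fun r => Quotient.map (TmB.smul r) (fun _ _ h => DerB.smul r h)
  op := fun f a => Quotient.mk _ (.app f (fun i => (a i).out))

theorem evalA_free (σ : ℕ → TmA R) (t : TmA R) :
    t.eval (freeAlg EA EB) (fun n => Quotient.mk (stdA EA) (σ n)) =
      Quotient.mk (stdA EA) (t.subst σ) := by
  induction t with
  | var n => rfl
  | zero => rfl
  | add s t ihs iht => show (freeAlg EA EB).aA _ _ = _; rw [ihs, iht]; rfl
  | neg s ih => show (freeAlg EA EB).nA _ = _; rw [ih]; rfl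
  | smul r s ih => show (freeAlg EA EB).sA _ _ = _; rw [ih]; rfl

theorem evalB_free (σ : ℕ → TmA R) (τ : ℕ → TmB R S ar) (t : TmB R S ar) :
    t.eval (freeAlg EA EB) (fun n => Quotient.mk (stdA EA) (σ n))
      (fun n => Quotient.mk (stdB EA EB) (τ n)) = Quotient.mk (stdB EA EB) (t.subst σ τ) := by
  induction t with
  | var n => rfl
  | zero => rfl
  | add s t ihs iht => show (freeAlg EA EB).aB _ _ = _; rw [ihs, iht]; rfl
  | neg s ih => show (freeAlg EA EB).nB _ = _; rw [ih]; rfl
  | smul r s ih => show (freeAlg EA EB).sB _ _ = _; rw [ih]; rfl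
  | app f a =>
    show (freeAlg EA EB).op f _ = _
    apply Quotient.sound
    apply DerB.app
    intro i
    apply Quotient.exact (s := stdA EA)
    rw [Quotient.out_eq]
    exact evalA_free EA EB σ (a i)

theorem freeA_holds : ∀ e ∈ EA, HoldsA (freeAlg EA EB) e.1 e.2 := by
  intro e he v
  have hv : v = fun n => Quotient.mk (stdA EA) ((v n).out) := by
    funext n; exact (Quotient.out_eq (v n)).symm
  rw [hv, evalA_free, evalA_free]
  exact Quotient.sound (DerA.ax e.1 e.2 _ he)

theorem freeB_holds : ∀ e ∈ EB, HoldsB (freeAlg EA EB) e.1 e.2 := by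
  intro e he v z
  have hv : v = fun n => Quotient.mk (stdA EA) ((v n).out) := by
    funext n; exact (Quotient.out_eq (v n)).symm
  have hz : z = fun n => Quotient.mk (stdB EA EB) ((z n).out) := by
    funext n; exact (Quotient.out_eq (z n)).symm
  rw [hv, hz, evalB_free, evalB_free]
  exact Quotient.sound (DerB.ax e.1 e.2 _ _ he)

theorem substA_var (t : TmA R) : t.subst TmA.var = t := by
  induction t with
  | var n => rfl
  | zero => rfl
  | add s t ihs iht => simp only [TmA.subst, ihs, iht]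
  | neg s ih => simp only [TmA.subst, ih]
  | smul r s ih => simp only [TmA.subst, ih]

theorem substB_var (t : TmB R S ar) : t.subst TmA.var TmB.var = t := by
  induction t with
  | var n => rfl
  | zero => rfl
  | add s t ihs iht => simp only [TmB.subst, ihs, iht]
  | neg s ih => simp only [TmB.subst, ih]
  | smul r s ih => simp only [TmB.subst, ih]
  | app f a => simp only [TmB.subst, substA_var]

end free

section final

variable [Ring R] [Ring S] [Finite R] [Finite S] [Finite F]
variable {A : Type u6} {B : Type u7} [AddCommGroup A] [Module R A] [AddCommGroup B] [Module S B]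

/-- The basis of the first sort. -/
def basA (R : Type u1) [Ring R] (A : Type u6) [AddCommGroup A] [Module R A] :
    Set (TmA R × TmA R) :=
  modLaws .zero .add .neg .smul (.var 0) (.var 1) (.var 2) {r : R | ∀ a : A, r • a = 0}

/-- The basis of the second sort. -/
def basB (R : Type u1) (S : Type u2) [Ring R] [Ring S] {F : Type u3} (ar : F → ℕ)
    (B : Type u7) [AddCommGroup B] [Module S B]
    (G : Set (Σ m : ℕ, ((F × (Fin m → Let R ar)) →₀ S))) :
    Set (TmB R S ar × TmB R S ar) :=
  modLaws .zero .add .neg .smul (.var 0) (.var 1) (.var 2) {r : S | ∀ b : B, r • b = 0} ∪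
    (fun g : (Σ m : ℕ, ((F × (Fin m → Let R ar)) →₀ S)) => (relT g.2, TmB.zero)) '' G

/-- Every algebra satisfying the basis satisfies all identities. -/
theorem model (op : (f : F) → (Fin (ar f) → A) → B)
    (G : Set (Σ m : ℕ, ((F × (Fin m → Let R ar)) →₀ S)))
    (hG : ∀ (m : ℕ) (x : (F × (Fin m → Let R ar)) →₀ S), x ∈ Rel R S op m →
        x ∈ Submodule.span S {y | ∃ g ∈ G, ∃ φ : Fin m → Fin g.1, y = psub φ g.2})
    (X : Alg R S ar M N) (hXA : ∀ e ∈ basA R A, HoldsA X e.1 e.2)
    (hXB : ∀ e ∈ basB R S ar B G, HoldsB X e.1 e.2) :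
    (∀ s t : TmA R, HoldsA (modAlg R S ar A B op) s t → HoldsA X s t) ∧
    (∀ s t : TmB R S ar, HoldsB (modAlg R S ar A B op) s t → HoldsB X s t) := by
  let v3 : M → M → M → ℕ → M := fun x y z n => match n with
    | 0 => x
    | 1 => y
    | _ => z
  let z3 : N → N → N → ℕ → N := fun x y z n => match n with
    | 0 => x
    | 1 => y
    | _ => z
  have a1 := hXA _ (Or.inl rfl)
  have a2 := hXA _ (Or.inr (Or.inl rfl))
  have a3 := hXA _ (Or.inr (Or.inr (Or.inl rfl)))
  have a4 := hXA _ (Or.inr (Or.inr (Or.inr (Or.inl rfl))))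
  have a5 := hXA _ (Or.inr (Or.inr (Or.inr (Or.inr (Or.inl rfl)))))
  have a6 := fun r => hXA _ (Or.inr (Or.inr (Or.inr (Or.inr (Or.inr (Or.inl ⟨r, rfl⟩))))))
  have a7 := fun r r' => hXA _
    (Or.inr (Or.inr (Or.inr (Or.inr (Or.inr (Or.inr (Or.inl ⟨r, r', rfl⟩)))))))
  have a8 := fun r r' => hXA _
    (Or.inr (Or.inr (Or.inr (Or.inr (Or.inr (Or.inr (Or.inr (Or.inl ⟨r, r', rfl⟩))))))))
  have a9 := fun (r : R) (hr : ∀ a : A, r • a = 0) => hXA _
    (Or.inr (Or.inr (Or.inr (Or.inr (Or.inr (Or.inr (Or.inr (Or.inr ⟨r, hr, rfl⟩))))))))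
  have b1 := hXB _ (Or.inl (Or.inl rfl))
  have b2 := hXB _ (Or.inl (Or.inr (Or.inl rfl)))
  have b3 := hXB _ (Or.inl (Or.inr (Or.inr (Or.inl rfl))))
  have b4 := hXB _ (Or.inl (Or.inr (Or.inr (Or.inr (Or.inl rfl)))))
  have b5 := hXB _ (Or.inl (Or.inr (Or.inr (Or.inr (Or.inr (Or.inl rfl))))))
  have b6 := fun r => hXB _ (Or.inl (Or.inr (Or.inr (Or.inr (Or.inr (Or.inr (Or.inl ⟨r, rfl⟩)))))))
  have b7 := fun r r' => hXB _ (Or.inl
    (Or.inr (Or.inr (Or.inr (Or.inr (Or.inr (Or.inr (Or.inl ⟨r, r', rfl⟩))))))))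
  have b8 := fun r r' => hXB _ (Or.inl
    (Or.inr (Or.inr (Or.inr (Or.inr (Or.inr (Or.inr (Or.inr (Or.inl ⟨r, r', rfl⟩)))))))))
  have b9 := fun (r : S) (hr : ∀ b : B, r • b = 0) => hXB _ (Or.inl
    (Or.inr (Or.inr (Or.inr (Or.inr (Or.inr (Or.inr (Or.inr (Or.inr ⟨r, hr, rfl⟩)))))))))
  letI : Add M := ⟨X.aA⟩
  letI : Neg M := ⟨X.nA⟩
  letI : Zero M := ⟨X.zA⟩
  letI iM : AddCommGroup M :=
    { AddGroup.ofLeftAxioms (G := M) (fun x y z => a1 (v3 x y z)) (fun x => a3 (v3 x x x))
        (fun x => a4 (v3 x x x)) with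
      add_comm := fun x y => a2 (v3 x y x) }
  letI : Add N := ⟨X.aB⟩
  letI : Neg N := ⟨X.nB⟩
  letI : Zero N := ⟨X.zB⟩
  letI iN : AddCommGroup N :=
    { AddGroup.ofLeftAxioms (G := N) (fun x y z => b1 (fun _ => X.zA) (z3 x y z))
        (fun x => b3 (fun _ => X.zA) (z3 x x x)) (fun x => b4 (fun _ => X.zA) (z3 x x x)) with
      add_comm := fun x y => b2 (fun _ => X.zA) (z3 x y x) }
  letI : SMul R M := ⟨X.sA⟩
  letI mM : Module R M := Module.ofMinimalAxioms
    (fun r x y => a6 r (v3 x y x)) (fun r s x => a7 r s (v3 x x x))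
    (fun r s x => a8 r s (v3 x x x)) (fun x => a5 (v3 x x x))
  letI : SMul S N := ⟨X.sB⟩
  letI mN : Module S N := Module.ofMinimalAxioms
    (fun r x y => b6 r (fun _ => X.zA) (z3 x y x)) (fun r s x => b7 r s (fun _ => X.zA) (z3 x x x))
    (fun r s x => b8 r s (fun _ => X.zA) (z3 x x x)) (fun x => b5 (fun _ => X.zA) (z3 x x x))
  have hX : X = modAlg R S ar M N X.op := rfl
  have hA : ∀ r : R, (∀ a : A, r • a = 0) → ∀ x : M, r • x = 0 := fun r hr x =>
    a9 r hr (v3 x x x)
  have hB : ∀ r : S, (∀ b : B, r • b = 0) → ∀ x : N, r • x = 0 := fun r hr x =>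
    b9 r hr (fun _ => X.zA) (z3 x x x)
  have hR : ∀ (m : ℕ) (p : (F × (Fin m → Let R ar)) →₀ S), p ∈ Rel R S op m →
      p ∈ Rel R S X.op m := by
    intro m p hp
    refine (Submodule.span_le.2 ?_) (hG m p hp)
    rintro y ⟨g, hg, φ, rfl⟩
    apply Rel_psub
    rw [mem_Rel]
    intro x
    have h1 := hXB (relT g.2, TmB.zero) (Or.inr ⟨g, hg, rfl⟩) (extz x) (fun _ => X.zB)
    have h2 := eval_relT (S := S) X.op (extz x) (fun _ => X.zB) g.2
    have h3 : (fun i : Fin g.1 => extz x i) = x := by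
      funext i
      simp [extz]
    rw [h3] at h2
    rw [← h2]
    exact h1
  exact ⟨fun s t h => transferA op X.op hA s t h, fun s t h => transferB op X.op hB hR s t h⟩

/-- The main theorem. -/
theorem hasFiniteBasis (op : (f : F) → (Fin (ar f) → A) → B) :
    HasFiniteBasis (modAlg R S ar A B op) := by
  obtain ⟨G, hG1, hG2, hG3⟩ := noeth (fun m => Rel R S op m)
    (fun m m' φ x hx => Rel_psub op φ x hx)
  have sA : ∀ e ∈ basA R A, HoldsA (modAlg R S ar A B op) e.1 e.2 := by
    rintro e (rfl | rfl | rfl | rfl | rfl | ⟨r, rfl⟩ | ⟨r, r', rfl⟩ | ⟨r, r', rfl⟩ |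
      ⟨r, hr, rfl⟩) v
    · exact add_assoc _ _ _
    · exact add_comm _ _
    · exact zero_add _
    · exact neg_add_cancel _
    · exact one_smul _ _
    · exact smul_add _ _ _
    · exact add_smul _ _ _
    · exact mul_smul _ _ _
    · exact hr _
  have sB : ∀ e ∈ basB R S ar B G, HoldsB (modAlg R S ar A B op) e.1 e.2 := by
    rintro e ((rfl | rfl | rfl | rfl | rfl | ⟨r, rfl⟩ | ⟨r, r', rfl⟩ | ⟨r, r', rfl⟩ |
      ⟨r, hr, rfl⟩) | ⟨g, hg, rfl⟩) v z
    · exact add_assoc _ _ _
    · exact add_comm _ _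
    · exact zero_add _
    · exact neg_add_cancel _
    · exact one_smul _ _
    · exact smul_add _ _ _
    · exact add_smul _ _ _
    · exact mul_smul _ _ _
    · exact hr _
    · show (relT g.2).eval _ v z = (0 : B)
      rw [eval_relT]
      exact (mem_Rel _ _ _).1 (hG2 g hg) _
  refine ⟨basA R A, basB R S ar B G, modLaws_finite _ _ _ _ _ _ _ _,
    (modLaws_finite _ _ _ _ _ _ _ _).union (hG1.image _), fun s t => ⟨fun h => ?_, fun h => ?_⟩,
    fun s t => ⟨fun h => ?_, fun h => ?_⟩⟩
  · exact derA_sound _ _ sA h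
  · have h1 := (model op G hG3 (freeAlg (basA R A) (basB R S ar B G))
      (freeA_holds _ _) (freeB_holds _ _)).1 s t h (fun n => Quotient.mk _ (TmA.var n))
    rw [evalA_free, evalA_free, substA_var, substA_var] at h1
    exact Quotient.exact h1
  · exact derB_sound _ _ _ sA sB h
  · have h1 := (model op G hG3 (freeAlg (basA R A) (basB R S ar B G))
      (freeA_holds _ _) (freeB_holds _ _)).2 s t h (fun n => Quotient.mk _ (TmA.var n))
      (fun n => Quotient.mk _ (TmB.var n))
    rw [evalB_free, evalB_free, substB_var, substB_var] at h1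
    exact Quotient.exact h1

end final

end Pool.Agent.X193.CLO
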