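import Pool.Agent.X193.CLO.Defs
import Pool.Agent.X193.CLO.Comb

/-!
# Normal forms of terms and the relations of a two-sorted algebra
-/

set_option autoImplicit false

namespace Pool.Agent.X193.CLO

universe u1 u2 u3 u4 u5 u6 u7

variable {R : Type u1} {S : Type u2} {F : Type u3} {ar : F → ℕ} {M : Type u4} {N : Type u5}

section mods

variable [Ring R] [Ring S] [AddCommGroup M] [Module R M] [AddCommGroup N] [Module S N]

/-- Extend a finite tuple by zero. -/
def extz {m : ℕ} (x : Fin m → M) : ℕ → M := fun n => if h : n < m then x ⟨n, h⟩ else 0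

/-- The coefficients of a term of the first sort. -/
def nfA (m : ℕ) : TmA R → (Fin m → R)
  | .var n => fun i => if (i : ℕ) = n then 1 else 0
  | .zero => 0
  | .add s t => nfA m s + nfA m t
  | .neg s => - nfA m s
  | .smul r s => r • nfA m s

theorem evalA_nf (op : (f : F) → (Fin (ar f) → M) → N) {m : ℕ} (x : Fin m → M) (t : TmA R) :
    t.eval (modAlg R S ar M N op) (extz x) = ∑ i, nfA m t i • x i := by
  induction t with
  | var n =>
    show extz x n = ∑ i : Fin m, (if (i : ℕ) = n then (1 : R) else 0) • x i
    by_cases h : n < m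
    · rw [Finset.sum_eq_single (⟨n, h⟩ : Fin m)]
      · simp [extz, h]
      · intro i _ hi
        rw [if_neg, zero_smul]
        intro h'
        exact hi (Fin.ext h')
      · intro h'
        exact (h' (Finset.mem_univ _)).elim
    · rw [Finset.sum_eq_zero]
      · simp [extz, h]
      · intro i _
        rw [if_neg, zero_smul]
        intro h'
        exact h (h' ▸ i.2)
  | zero =>
    show (0 : M) = ∑ i : Fin m, (0 : R) • x i
    simp
  | add s t ihs iht =>
    show s.eval _ _ + t.eval _ _ = ∑ i : Fin m, (nfA m s i + nfA m t i) • x i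
    rw [ihs, iht, ← Finset.sum_add_distrib]
    simp only [add_smul]
  | neg s ih =>
    show - s.eval _ _ = ∑ i : Fin m, (- nfA m s i) • x i
    rw [ih, ← Finset.sum_neg_distrib]
    simp only [neg_smul]
  | smul r s ih =>
    show r • s.eval _ _ = ∑ i : Fin m, (r * nfA m s i) • x i
    rw [ih, Finset.smul_sum]
    simp only [mul_smul]

/-- The letters. -/
abbrev Let (R : Type u1) {F : Type u3} (ar : F → ℕ) : Type (max u1 u3) :=
  (f : F) → Fin (ar f) → R

open Classical in
/-- The normal form of a term of the second sort. -/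
noncomputable def nfB (m : ℕ) :
    TmB R S ar → (ℕ →₀ S) × ((F × (Fin m → Let R ar)) →₀ S)
  | .var n => (Finsupp.single n 1, 0)
  | .zero => 0
  | .add s t => nfB m s + nfB m t
  | .neg s => - nfB m s
  | .smul r s => r • nfB m s
  | .app f a => (0, Finsupp.single (f, fun i =>
      Function.update (0 : Let R ar) f (fun k => nfA m (a k) i)) 1)

/-- The value of a word. -/
def vM (op : (f : F) → (Fin (ar f) → M) → N) {m : ℕ} (x : Fin m → M) :
    F × (Fin m → Let R ar) → N :=
  fun t => op t.1 (fun k => ∑ i, t.2 i t.1 k • x i)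

theorem evalB_nf (op : (f : F) → (Fin (ar f) → M) → N) {m : ℕ} (x : Fin m → M) (z : ℕ → N)
    (t : TmB R S ar) :
    t.eval (modAlg R S ar M N op) (extz x) z =
      Finsupp.linearCombination S z (nfB m t).1 +
      Finsupp.linearCombination S (vM op x) (nfB m t).2 := by
  classical
  induction t with
  | var n =>
    show z n = Finsupp.linearCombination S z (Finsupp.single n 1) +
      Finsupp.linearCombination S (vM op x) 0
    simp
  | zero =>
    show (0 : N) = Finsupp.linearCombination S z 0 + Finsupp.linearCombination S (vM op x) 0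
    simp
  | add s t ihs iht =>
    show s.eval _ _ _ + t.eval _ _ _ =
      Finsupp.linearCombination S z ((nfB m s).1 + (nfB m t).1) +
      Finsupp.linearCombination S (vM op x) ((nfB m s).2 + (nfB m t).2)
    rw [ihs, iht, map_add, map_add]
    abel
  | neg s ih =>
    show - s.eval _ _ _ = Finsupp.linearCombination S z (-(nfB m s).1) +
      Finsupp.linearCombination S (vM op x) (-(nfB m s).2)
    rw [ih, map_neg, map_neg]
    abel
  | smul r s ih =>
    show r • s.eval _ _ _ = Finsupp.linearCombination S z (r • (nfB m s).1) +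
      Finsupp.linearCombination S (vM op x) (r • (nfB m s).2)
    rw [ih, map_smul, map_smul, smul_add]
  | app f a =>
    show op f (fun k => (a k).eval _ _) = Finsupp.linearCombination S z 0 +
      Finsupp.linearCombination S (vM op x) (Finsupp.single (f, fun i =>
      Function.update (0 : Let R ar) f (fun k => nfA m (a k) i)) 1)
    rw [map_zero, zero_add, Finsupp.linearCombination_single, one_smul]
    show _ = op f (fun k => ∑ i, (Function.update (0 : Let R ar) f
      (fun k => nfA m (a k) i)) f k • x i)
    congr 1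
    funext k
    rw [evalA_nf]
    simp

variable (R S) in
/-- The relations between words which hold in the algebra. -/
noncomputable def Rel (op : (f : F) → (Fin (ar f) → M) → N) (m : ℕ) :
    Submodule S ((F × (Fin m → Let R ar)) →₀ S) :=
  ⨅ x : Fin m → M, LinearMap.ker (Finsupp.linearCombination S (vM op x))

theorem mem_Rel (op : (f : F) → (Fin (ar f) → M) → N) (m : ℕ)
    (p : (F × (Fin m → Let R ar)) →₀ S) :
    p ∈ Rel R S op m ↔ ∀ x : Fin m → M, Finsupp.linearCombination S (vM op x) p = 0 := by
  simp [Rel]

theorem vM_psub (op : (f : F) → (Fin (ar f) → M) → N) {m m' : ℕ} (φ : Fin m' → Fin m)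
    (x : Fin m' → M) (p : (F × (Fin m → Let R ar)) →₀ S) :
    Finsupp.linearCombination S (vM op x) (psub φ p) =
      Finsupp.linearCombination S
        (vM op (fun i => ∑ j ∈ Finset.univ.filter (fun j => φ j = i), x j)) p := by
  classical
  rw [psub, Finsupp.lmapDomain_apply, Finsupp.linearCombination_mapDomain]
  congr 2
  funext t
  show op t.1 (fun k => ∑ j, t.2 (φ j) t.1 k • x j) =
    op t.1 (fun k => ∑ i, t.2 i t.1 k • ∑ j ∈ Finset.univ.filter (fun j => φ j = i), x j)
  congr 1
  funext k
  rw [← Finset.sum_fiberwise (s := Finset.univ) (g := φ)]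
  refine Finset.sum_congr rfl (fun i _ => ?_)
  rw [Finset.smul_sum]
  refine Finset.sum_congr rfl (fun j hj => ?_)
  rw [(Finset.mem_filter.1 hj).2]

theorem Rel_psub (op : (f : F) → (Fin (ar f) → M) → N) {m m' : ℕ} (φ : Fin m' → Fin m)
    (p : (F × (Fin m → Let R ar)) →₀ S) (hp : p ∈ Rel R S op m) :
    psub φ p ∈ Rel R S op m' := by
  rw [mem_Rel] at hp ⊢
  intro x
  rw [vM_psub]
  exact hp _

/-- The term of the first sort with given coefficients. -/
def linT : List (R × ℕ) → TmA R
  | [] => .zero
  | p :: l => .add (.smul p.1 (.var p.2)) (linT l)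

theorem eval_linT (op : (f : F) → (Fin (ar f) → M) → N) (v : ℕ → M) (l : List (R × ℕ)) :
    (linT l).eval (modAlg R S ar M N op) v = (l.map (fun p => p.1 • v p.2)).sum := by
  induction l with
  | nil => rfl
  | cons p l ih =>
    rw [List.map_cons, List.sum_cons, ← ih]
    rfl

/-- The term `∑ w_i x_i`. -/
def wordT {m : ℕ} (w : Fin m → R) : TmA R := linT (List.ofFn (fun i => (w i, (i : ℕ))))

theorem eval_wordT (op : (f : F) → (Fin (ar f) → M) → N) (v : ℕ → M) {m : ℕ} (w : Fin m → R) :
    (wordT w).eval (modAlg R S ar M N op) v = ∑ i : Fin m, w i • v i := by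
  rw [wordT, eval_linT, List.map_ofFn, List.sum_ofFn]
  rfl

/-- The term of the second sort given by a list of words with coefficients. -/
def relL {m : ℕ} : List (S × (F × (Fin m → Let R ar))) → TmB R S ar
  | [] => .zero
  | p :: l => .add (.smul p.1 (.app p.2.1 (fun k => wordT (fun i => p.2.2 i p.2.1 k)))) (relL l)

theorem eval_relL (op : (f : F) → (Fin (ar f) → M) → N) (v : ℕ → M) (z : ℕ → N) {m : ℕ}
    (l : List (S × (F × (Fin m → Let R ar)))) :
    (relL l).eval (modAlg R S ar M N op) v z =
      (l.map (fun p => p.1 • vM op (fun i : Fin m => v i) p.2)).sum := by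
  induction l with
  | nil => rfl
  | cons p l ih =>
    rw [List.map_cons, List.sum_cons, ← ih]
    show p.1 • op p.2.1 (fun k => (wordT _).eval (modAlg R S ar M N op) v) + _ = _
    simp only [eval_wordT]
    rfl

/-- The term of the second sort given by a combination of words. -/
noncomputable def relT {m : ℕ} (p : (F × (Fin m → Let R ar)) →₀ S) : TmB R S ar :=
  relL (p.support.toList.map (fun t => (p t, t)))

theorem eval_relT (op : (f : F) → (Fin (ar f) → M) → N) (v : ℕ → M) (z : ℕ → N) {m : ℕ}
    (p : (F × (Fin m → Let R ar)) →₀ S) :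
    (relT p).eval (modAlg R S ar M N op) v z =
      Finsupp.linearCombination S (vM op (fun i : Fin m => v i)) p := by
  rw [relT, eval_relL, List.map_map, Finsupp.linearCombination_apply, Finsupp.sum,
    ← Finset.sum_map_toList]
  rfl

end mods

section bounds

/-- A bound for the variables of a term. -/
def TmA.bd : TmA R → ℕ
  | .var n => n + 1
  | .zero => 0
  | .add s t => max s.bd t.bd
  | .neg s => s.bd
  | .smul _ s => s.bd

/-- A bound for the variables of the first sort in a term. -/
def TmB.bd : TmB R S ar → ℕ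
  | .var _ => 0
  | .zero => 0
  | .add s t => max s.bd t.bd
  | .neg s => s.bd
  | .smul _ s => s.bd
  | .app _ a => Finset.univ.sup (fun i => (a i).bd)

theorem TmA.eval_congr (X : Alg R S ar M N) (v v' : ℕ → M) (t : TmA R)
    (h : ∀ n, n < t.bd → v n = v' n) : t.eval X v = t.eval X v' := by
  induction t with
  | var n => exact h n (Nat.lt_succ_self n)
  | zero => rfl
  | add s t ihs iht =>
    show X.aA _ _ = X.aA _ _
    rw [ihs (fun n hn => h n (lt_of_lt_of_le hn (le_max_left _ _))),
      iht (fun n hn => h n (lt_of_lt_of_le hn (le_max_right _ _)))]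
  | neg s ih =>
    show X.nA _ = X.nA _
    rw [ih h]
  | smul r s ih =>
    show X.sA _ _ = X.sA _ _
    rw [ih h]

theorem TmB.eval_congr (X : Alg R S ar M N) (v v' : ℕ → M) (z : ℕ → N) (t : TmB R S ar)
    (h : ∀ n, n < t.bd → v n = v' n) : t.eval X v z = t.eval X v' z := by
  induction t with
  | var n => rfl
  | zero => rfl
  | add s t ihs iht =>
    show X.aB _ _ = X.aB _ _
    rw [ihs (fun n hn => h n (lt_of_lt_of_le hn (le_max_left _ _))),
      iht (fun n hn => h n (lt_of_lt_of_le hn (le_max_right _ _)))]
  | neg s ih =>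
    show X.nB _ = X.nB _
    rw [ih h]
  | smul r s ih =>
    show X.sB _ _ = X.sB _ _
    rw [ih h]
  | app f a =>
    show X.op f _ = X.op f _
    congr 1
    funext i
    exact TmA.eval_congr X v v' (a i) (fun n hn => h n (lt_of_lt_of_le hn
      (Finset.le_sup (f := fun i => (a i).bd) (Finset.mem_univ i))))

end bounds

section transfer

variable [Ring R] [Ring S] [AddCommGroup M] [Module R M] [AddCommGroup N] [Module S N]
variable {A : Type u6} {B : Type u7} [AddCommGroup A] [Module R A] [AddCommGroup B] [Module S B]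

/-- Transfer of identities of the first sort. -/
theorem transferA (opA : (f : F) → (Fin (ar f) → A) → B) (opM : (f : F) → (Fin (ar f) → M) → N)
    (hA : ∀ r : R, (∀ a : A, r • a = 0) → ∀ x : M, r • x = 0) (s t : TmA R)
    (h : HoldsA (modAlg R S ar A B opA) s t) : HoldsA (modAlg R S ar M N opM) s t := by
  intro v
  set m := max s.bd t.bd with hm
  have e1 : ∀ n, n < m → v n = extz (fun i : Fin m => v i) n := by
    intro n hn
    simp [extz, hn]
  rw [TmA.eval_congr _ v (extz (fun i : Fin m => v i)) s
      (fun n hn => e1 n (lt_of_lt_of_le hn (le_max_left _ _))),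
    TmA.eval_congr _ v (extz (fun i : Fin m => v i)) t
      (fun n hn => e1 n (lt_of_lt_of_le hn (le_max_right _ _))), evalA_nf, evalA_nf,
    ← sub_eq_zero, ← Finset.sum_sub_distrib]
  refine Finset.sum_eq_zero (fun i _ => ?_)
  rw [← sub_smul]
  apply hA
  intro a
  have h1 := h (extz (fun j : Fin m => if j = i then a else 0))
  rw [evalA_nf, evalA_nf] at h1
  simp only [smul_ite, smul_zero, Finset.sum_ite_eq', Finset.mem_univ, if_true] at h1
  rw [sub_smul, h1, sub_self]

/-- Transfer of identities of the second sort. -/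
theorem transferB (opA : (f : F) → (Fin (ar f) → A) → B) (opM : (f : F) → (Fin (ar f) → M) → N)
    (hB : ∀ r : S, (∀ b : B, r • b = 0) → ∀ x : N, r • x = 0)
    (hR : ∀ (m : ℕ) (p : (F × (Fin m → Let R ar)) →₀ S), p ∈ Rel R S opA m →
      p ∈ Rel R S opM m) (s t : TmB R S ar)
    (h : HoldsB (modAlg R S ar A B opA) s t) : HoldsB (modAlg R S ar M N opM) s t := by
  classical
  intro v z
  set m := max s.bd t.bd with hm
  have e1 : ∀ n, n < m → v n = extz (fun i : Fin m => v i) n := by
    intro n hn
    simp [extz, hn]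
  rw [TmB.eval_congr _ v (extz (fun i : Fin m => v i)) z s
      (fun n hn => e1 n (lt_of_lt_of_le hn (le_max_left _ _))),
    TmB.eval_congr _ v (extz (fun i : Fin m => v i)) z t
      (fun n hn => e1 n (lt_of_lt_of_le hn (le_max_right _ _))), evalB_nf, evalB_nf]
  have h2 : ∀ (x : Fin m → A) (z : ℕ → B),
      Finsupp.linearCombination S z ((nfB m s).1 - (nfB m t).1) +
      Finsupp.linearCombination S (vM opA x) ((nfB m s).2 - (nfB m t).2) = 0 := by
    intro x z
    have h1 := h (extz x) z
    rw [evalB_nf, evalB_nf] at h1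
    rw [map_sub, map_sub, sub_add_sub_comm, h1, sub_self]
  have h3 : (nfB m s).2 - (nfB m t).2 ∈ Rel R S opA m := by
    rw [mem_Rel]
    intro x
    have := h2 x 0
    have h0 : Finsupp.linearCombination S (0 : ℕ → B) ((nfB m s).1 - (nfB m t).1) = 0 := by
      rw [Finsupp.linearCombination_apply]
      simp
    rwa [h0, zero_add] at this
  have h4 : ∀ n, ∀ b : B, ((nfB m s).1 - (nfB m t).1) n • b = 0 := by
    intro n b
    have h5 := h2 0 (fun k => if k = n then b else 0)
    rw [(mem_Rel _ _ _).1 h3, add_zero, Finsupp.linearCombination_apply, Finsupp.sum] at h5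
    simp only [smul_ite, smul_zero] at h5
    rw [Finset.sum_ite_eq'] at h5
    by_cases hn : n ∈ ((nfB m s).1 - (nfB m t).1).support
    · rwa [if_pos hn] at h5
    · rw [Finsupp.notMem_support_iff.1 hn, zero_smul]
  rw [← sub_eq_zero, add_sub_add_comm, ← map_sub, ← map_sub, (mem_Rel _ _ _).1 (hR m _ h3),
    add_zero, Finsupp.linearCombination_apply, Finsupp.sum]
  exact Finset.sum_eq_zero (fun n _ => hB _ (h4 n) _)

end transfer

end Pool.Agent.X193.CLO
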